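import Mathlib

namespace Pool.Agent.H.MP_7d59ed_nt

open Filter Topology

def t (n : ℕ) : ℤ := (-1) ^ (Nat.digits 2 n).count 1

def h : ℕ → ℤ
  | 0 => 0
  | 1 => 1
  | n + 2 => t (n + 2) * h (n + 1) + h n

lemma t_even (n : ℕ) : t (2 * n) = t n := by
  unfold t
  rcases Nat.eq_zero_or_pos n with h | h
  · simp [h]
  · rw [Nat.digits_def' (by norm_num) (by omega)]
    simp

lemma t_odd (n : ℕ) : t (2 * n + 1) = -t n := by
  unfold t
  rw [Nat.digits_def' (by norm_num) (by omega)]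
  have h1 : (2 * n + 1) % 2 = 1 := by omega
  have h2 : (2 * n + 1) / 2 = n := by omega
  rw [h1, h2]
  simp [pow_succ]

lemma t_cases (n : ℕ) : t n = 1 ∨ t n = -1 := neg_one_pow_eq_or ℤ _

lemma block (j : ℕ) (u v : ℤ) (hu : h (8 * j + 7) = u) (hv : h (8 * j + 6) = v) :
    ∃ s : ℤ, (s = 1 ∨ s = -1) ∧ s = t (j + 1) ∧
      h (8 * j + 8) = s * u + v ∧ h (8 * j + 9) = -s * v ∧ h (8 * j + 10) = s * u + 2 * v ∧
      h (8 * j + 11) = u + s * v ∧ h (8 * j + 12) = v ∧ h (8 * j + 13) = u + 2 * s * v ∧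
      h (8 * j + 14) = s * u + 3 * v ∧ h (8 * j + 15) = -s * v := by
  have e0 : t (8 * j + 8) = t (j + 1) := by
    rw [show 8 * j + 8 = 2 * (2 * (2 * (j + 1))) by ring, t_even, t_even, t_even]
  have e1 : t (8 * j + 9) = -t (j + 1) := by
    rw [show 8 * j + 9 = 2 * (2 * (2 * (j + 1))) + 1 by ring, t_odd, t_even, t_even]
  have e2 : t (8 * j + 10) = -t (j + 1) := by
    rw [show 8 * j + 10 = 2 * (2 * (2 * (j + 1)) + 1) by ring, t_even, t_odd, t_even]
  have e3 : t (8 * j + 11) = t (j + 1) := by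
    rw [show 8 * j + 11 = 2 * (2 * (2 * (j + 1)) + 1) + 1 by ring, t_odd, t_odd, t_even, neg_neg]
  have e4 : t (8 * j + 12) = -t (j + 1) := by
    rw [show 8 * j + 12 = 2 * (2 * (2 * (j + 1) + 1)) by ring, t_even, t_even, t_odd]
  have e5 : t (8 * j + 13) = t (j + 1) := by
    rw [show 8 * j + 13 = 2 * (2 * (2 * (j + 1) + 1)) + 1 by ring, t_odd, t_even, t_odd, neg_neg]
  have e6 : t (8 * j + 14) = t (j + 1) := by
    rw [show 8 * j + 14 = 2 * (2 * (2 * (j + 1) + 1) + 1) by ring, t_even, t_odd, t_odd, neg_neg]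
  have e7 : t (8 * j + 15) = -t (j + 1) := by
    rw [show 8 * j + 15 = 2 * (2 * (2 * (j + 1) + 1) + 1) + 1 by ring, t_odd, t_odd, t_odd,
      neg_neg]
  have r0 : h (8 * j + 8) = t (8 * j + 8) * h (8 * j + 7) + h (8 * j + 6) := by rw [h]
  have r1 : h (8 * j + 9) = t (8 * j + 9) * h (8 * j + 8) + h (8 * j + 7) := by rw [h]
  have r2 : h (8 * j + 10) = t (8 * j + 10) * h (8 * j + 9) + h (8 * j + 8) := by rw [h]
  have r3 : h (8 * j + 11) = t (8 * j + 11) * h (8 * j + 10) + h (8 * j + 9) := by rw [h]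
  have r4 : h (8 * j + 12) = t (8 * j + 12) * h (8 * j + 11) + h (8 * j + 10) := by rw [h]
  have r5 : h (8 * j + 13) = t (8 * j + 13) * h (8 * j + 12) + h (8 * j + 11) := by rw [h]
  have r6 : h (8 * j + 14) = t (8 * j + 14) * h (8 * j + 13) + h (8 * j + 12) := by rw [h]
  have r7 : h (8 * j + 15) = t (8 * j + 15) * h (8 * j + 14) + h (8 * j + 13) := by rw [h]
  rw [e0, hu, hv] at r0
  rw [e1, hu] at r1
  rw [e2] at r2
  rw [e3] at r3
  rw [e4] at r4
  rw [e5] at r5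
  rw [e6] at r6
  rw [e7] at r7
  refine ⟨t (j + 1), t_cases _, rfl, ?_⟩
  rcases t_cases (j + 1) with e | e <;> rw [e] at r0 r1 r2 r3 r4 r5 r6 r7 ⊢ <;> omega

lemma vals : h 3 = 0 ∧ h 4 = -1 ∧ h 5 = -1 ∧ h 6 = -2 ∧ h 7 = 1 ∧ h 8 = -3 ∧ h 9 = -2 ∧
    h 10 = -5 ∧ h 11 = 3 ∧ h 12 = -2 ∧ h 13 = 5 ∧ h 14 = -7 ∧ h 15 = -2 := by
  decide +kernel

lemma inv (j : ℕ) : 5 * (h (8 * j + 15)).natAbs ≤ 2 * (h (8 * j + 14)).natAbs := by
  induction j with
  | zero => simp [vals]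
  | succ j ih =>
    obtain ⟨s, hs, -, -, -, -, -, -, -, e6, e7⟩ := block (j + 1) _ _ rfl rfl
    rw [e6, e7, show 8 * (j + 1) + 7 = 8 * j + 15 by ring, show 8 * (j + 1) + 6 = 8 * j + 14 by ring]
    rcases hs with rfl | rfl <;> omega

lemma low (n : ℕ) (hn : 15 ≤ n) : 5 * (h n).natAbs ≤ 17 * (h (n + 1)).natAbs := by
  obtain ⟨j, r, hr, rfl⟩ : ∃ j r, r < 8 ∧ n = 8 * (j + 1) + 7 + r :=
    ⟨(n - 15) / 8, (n - 15) % 8, by omega, by omega⟩
  have hi := inv j
  rw [show 8 * j + 15 = 8 * (j + 1) + 7 by ring, show 8 * j + 14 = 8 * (j + 1) + 6 by ring] at hi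
  obtain ⟨s, hs, -, e0, e1, e2, e3, e4, e5, e6, e7⟩ := block (j + 1) _ _ rfl rfl
  generalize j + 1 = i at *
  interval_cases r <;> simp only [add_assoc, Nat.reduceAdd, e0, e1, e2, e3, e4, e5, e6, e7] <;>
    clear e0 e1 e2 e3 e4 e5 e6 e7 <;> generalize h (8 * i + 7) = u at * <;>
    generalize h (8 * i + 6) = v at * <;> rcases hs with rfl | rfl <;> omega

lemma q1 (n : ℕ) (hn : 3 ≤ n) : 2 * (h n).natAbs ≤ 7 * (h (n + 1)).natAbs := by
  by_cases h15 : 15 ≤ n
  · have := low n h15; omega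
  · push Not at h15
    interval_cases n <;> simp [vals]

lemma ne (n : ℕ) (hn : 4 ≤ n) : h n ≠ 0 := by
  induction n, hn using Nat.le_induction with
  | base => simp [vals]
  | succ n hn ih => have := q1 n (by omega); omega

lemma up (n : ℕ) (hn : 4 ≤ n) : 2 * (h (n + 1)).natAbs ≤ 9 * (h n).natAbs := by
  obtain ⟨m, rfl⟩ : ∃ m, n = m + 1 := ⟨n - 1, by omega⟩
  have r : h (m + 1 + 1) = t (m + 2) * h (m + 1) + h m := by rw [h]
  have := q1 m (by omega)
  rcases t_cases (m + 2) with e | e <;> rw [e] at r <;> omega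

lemma cast_abs (x : ℤ) : |(x : ℝ)| = (x.natAbs : ℝ) := by
  rw [Nat.cast_natAbs]; simp

def V (j : ℕ) : ℤ := -h (8 * j + 6)

lemma V_rec (j : ℕ) : V (j + 2) = 3 * V (j + 1) - t (j + 2) * t (j + 1) * V j := by
  obtain ⟨s, -, rfl, -, -, -, -, -, -, -, e7⟩ := block j _ _ rfl rfl
  obtain ⟨s, -, rfl, -, -, -, -, -, -, e6, -⟩ := block (j + 1) _ _ rfl rfl
  unfold V
  rw [show 8 * (j + 2) + 6 = 8 * (j + 1) + 14 by ring, e6,
    show 8 * (j + 1) + 7 = 8 * j + 15 by ring, e7]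
  ring

lemma d_cases (j : ℕ) : t (j + 2) * t (j + 1) = 1 ∨ t (j + 2) * t (j + 1) = -1 := by
  rcases t_cases (j + 2) with a | a <;> rcases t_cases (j + 1) with b | b <;> simp [a, b]

lemma cone (j : ℕ) : 0 < V j ∧ 5 * V j ≤ 2 * V (j + 1) ∧ 2 * V (j + 1) ≤ 7 * V j := by
  induction j with
  | zero => simp [V, vals]
  | succ j ih =>
    rw [V_rec]
    rcases d_cases j with e | e <;> rw [e] <;> omega

lemma compare (a b m : ℕ)
    (hd : ∀ i < m, t (a + i + 2) * t (a + i + 1) = t (b + i + 2) * t (b + i + 1)) :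
    2 * |9 * V (a + 1) * V (b + m) - V (b + 1) * V (a + m)| ≤
      9 * V (a + 1) * V (b + m + 1) - V (b + 1) * V (a + m + 1) := by
  induction m with
  | zero =>
    obtain ⟨a1, a2, a3⟩ := cone a
    obtain ⟨b1, b2, b3⟩ := cone b
    have a4 := (cone (a + 1)).1
    have b4 := (cone (b + 1)).1
    simp only [add_zero]
    rcases abs_cases (9 * V (a + 1) * V b - V (b + 1) * V a) with ⟨e, -⟩ | ⟨e, -⟩ <;> rw [e] <;>
      nlinarith [mul_pos a1 b4, mul_pos a4 b1, mul_pos a4 b4]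
  | succ m ih =>
    have ih := ih (fun i hi => hd i (by omega))
    have e := hd m (by omega)
    rw [show b + (m + 1) + 1 = b + m + 2 by ring, show a + (m + 1) + 1 = a + m + 2 by ring,
      V_rec, V_rec, e, ← add_assoc, ← add_assoc]
    generalize V (a + 1) = x at *
    generalize V (b + 1) = y at *
    have h0 := abs_nonneg (9 * x * V (b + m) - y * V (a + m))
    have h1 := le_abs_self (9 * x * V (b + m) - y * V (a + m))
    have h2 := neg_abs_le (9 * x * V (b + m) - y * V (a + m))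
    rw [abs_of_nonneg (by linarith)]
    rcases d_cases (b + m) with e | e <;> rw [e] <;> linarith

lemma t_block (k : ℕ) : ∀ p i, i < 2 ^ k → t (2 ^ k * p + i) = t p * t i := by
  induction k with
  | zero =>
    intro p i hi
    have : i = 0 := by omega
    subst this
    simp [t]
  | succ k ih =>
    intro p i hi
    rcases Nat.even_or_odd' i with ⟨j, rfl | rfl⟩
    · rw [show 2 ^ (k + 1) * p + 2 * j = 2 * (2 ^ k * p + j) by ring, t_even, t_even,
        ih p j (by rw [pow_succ] at hi; omega)]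
    · rw [show 2 ^ (k + 1) * p + (2 * j + 1) = 2 * (2 ^ k * p + j) + 1 by ring, t_odd, t_odd,
        ih p j (by rw [pow_succ] at hi; omega)]
      ring

lemma distort (k p q : ℕ) (hp : 1 ≤ p) (hq : 1 ≤ q) :
    V (2 ^ k * q) * V (2 ^ k * (p + 1)) ≤ 13 * (V (2 ^ k * p) * V (2 ^ k * (q + 1))) := by
  have hM : 0 < 2 ^ k := by positivity
  obtain ⟨m, hm⟩ : ∃ m, 2 ^ k = m + 1 := ⟨2 ^ k - 1, by omega⟩
  obtain ⟨a, ha⟩ : ∃ a, 2 ^ k * p = a + 1 := ⟨2 ^ k * p - 1, by have := Nat.mul_pos hM hp; omega⟩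
  obtain ⟨b, hb⟩ : ∃ b, 2 ^ k * q = b + 1 := ⟨2 ^ k * q - 1, by have := Nat.mul_pos hM hq; omega⟩
  have hc := compare a b m (by
    intro i hi
    rw [show a + i + 2 = (a + 1) + (i + 1) by ring, show a + i + 1 = (a + 1) + i by ring,
      show b + i + 2 = (b + 1) + (i + 1) by ring, show b + i + 1 = (b + 1) + i by ring,
      ← ha, ← hb, t_block k p _ (by omega), t_block k p _ (by omega), t_block k q _ (by omega),
      t_block k q _ (by omega)]
    rcases t_cases p with e | e <;> rcases t_cases q with e' | e' <;> rw [e, e'] <;> ring)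
  rw [mul_add, mul_add, ha, hb, mul_one, hm, show a + 1 + (m + 1) = a + m + 1 + 1 by ring,
    show b + 1 + (m + 1) = b + m + 1 + 1 by ring]
  obtain ⟨a1, a2, a3⟩ := cone (a + m + 1)
  obtain ⟨b1, b2, b3⟩ := cone (b + m + 1)
  have a4 := (cone (a + 1)).1
  have b4 := (cone (b + 1)).1
  have h0 := abs_nonneg (9 * V (a + 1) * V (b + m) - V (b + 1) * V (a + m))
  nlinarith [mul_le_mul_of_nonneg_left a3 b4.le, mul_le_mul_of_nonneg_left b2 a4.le,
    mul_pos a4 b1]

lemma gen (f : ℕ → ℝ) (c g C : ℝ) (N : ℕ) (hN : 0 < N) (hC : 0 ≤ C)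
    (h1 : ∀ n, |f (n + 1) - f n| ≤ c)
    (h2 : ∀ p, 1 ≤ p → |f (N * (p + 1)) - f (N * p) - g| ≤ C) :
    ∃ D : ℝ, ∀ n : ℕ, 0 < n → |f n / n - g / N| ≤ C / N + D / n := by
  have hc : 0 ≤ c := (abs_nonneg _).trans (h1 0)
  have hN' : (0 : ℝ) < N := by exact_mod_cast hN
  have s1 : ∀ n r : ℕ, |f (n + r) - f n| ≤ c * r := by
    intro n r
    induction r with
    | zero => simp
    | succ r ih =>
      have := h1 (n + r)
      rw [abs_le] at *
      rw [← add_assoc]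
      push_cast
      constructor <;> linarith [ih.1, ih.2, this.1, this.2]
  have s2 : ∀ p : ℕ, |f (N * p) - p * g| ≤ p * C + (|f N - g| + |f 0|) := by
    intro p
    rcases Nat.eq_zero_or_pos p with rfl | hp
    · simp
    · induction p, hp using Nat.le_induction with
      | base => simp; linarith [abs_nonneg (f 0)]
      | succ p hp ih =>
        have := h2 p hp
        rw [abs_le] at *
        push_cast
        constructor <;> linarith [ih.1, ih.2, this.1, this.2]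
  refine ⟨|f N - g| + |f 0| + c * N + |g|, fun n hn => ?_⟩
  have hn' : (0 : ℝ) < n := by exact_mod_cast hn
  have e : n = N * (n / N) + n % N := (Nat.div_add_mod n N).symm
  have hr : ((n % N : ℕ) : ℝ) ≤ N := by exact_mod_cast (Nat.mod_lt n hN).le
  have a1 := s1 (N * (n / N)) (n % N)
  have a2 := s2 (n / N)
  rw [← e] at a1
  have e' : (n : ℝ) = N * (n / N : ℕ) + (n % N : ℕ) := by exact_mod_cast e
  generalize ((n / N : ℕ) : ℝ) = p at *
  have hr0 : (0 : ℝ) ≤ (n % N : ℕ) := by positivity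
  generalize ((n % N : ℕ) : ℝ) = r at *
  have key : |f n - n * (g / N)| ≤ n * (C / N) + (|f N - g| + |f 0| + c * N + |g|) := by
    have b1 : (n : ℝ) * (g / N) = p * g + r / N * g := by rw [e']; field_simp
    have b2 : (n : ℝ) * (C / N) = p * C + r / N * C := by rw [e']; field_simp
    have b3 : r / N ≤ 1 := (div_le_one hN').2 hr
    have b4 : 0 ≤ r / N := by positivity
    have b5 : |r / N * g| ≤ |g| := by
      rw [abs_mul, abs_of_nonneg b4]; exact mul_le_of_le_one_left (abs_nonneg _) b3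
    have b6 : c * r ≤ c * N := mul_le_mul_of_nonneg_left hr hc
    have b7 : 0 ≤ r / N * C := by positivity
    rw [b1, b2]
    rw [abs_le] at *
    constructor <;> linarith [a1.1, a1.2, a2.1, a2.2, b5.1, b5.2]
  have : f n / n - g / N = (f n - n * (g / N)) / n := by field_simp
  rw [this, abs_div, abs_of_pos hn', div_le_iff₀ hn', add_mul, div_mul_cancel₀ _ hn'.ne']
  linarith

noncomputable def f (n : ℕ) : ℝ := Real.log |(h (n + 6) : ℝ)|

lemma f_step (n : ℕ) : |f (n + 1) - f n| ≤ Real.log (9 / 2) := by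
  have h1 : (2 : ℝ) * (h (n + 6)).natAbs ≤ 7 * (h (n + 6 + 1)).natAbs := by
    exact_mod_cast q1 (n + 6) (by omega)
  have h2 : (2 : ℝ) * (h (n + 6 + 1)).natAbs ≤ 9 * (h (n + 6)).natAbs := by
    exact_mod_cast up (n + 6) (by omega)
  have h3 := ne (n + 6) (by omega)
  have h4 := ne (n + 6 + 1) (by omega)
  unfold f
  rw [show n + 1 + 6 = n + 6 + 1 by ring, cast_abs, cast_abs]
  have h5 : (0 : ℝ) < (h (n + 6)).natAbs := Nat.cast_pos.2 (Int.natAbs_pos.2 h3)
  have h6 : (0 : ℝ) < (h (n + 6 + 1)).natAbs := Nat.cast_pos.2 (Int.natAbs_pos.2 h4)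
  generalize ((h (n + 6)).natAbs : ℝ) = x at *
  generalize ((h (n + 6 + 1)).natAbs : ℝ) = y at *
  rw [abs_le]
  constructor
  · have : Real.log x ≤ Real.log (9 / 2 * y) := Real.log_le_log h5 (by linarith)
    rw [Real.log_mul (by norm_num) h6.ne'] at this
    linarith
  · have : Real.log y ≤ Real.log (9 / 2 * x) := Real.log_le_log h6 (by linarith)
    rw [Real.log_mul (by norm_num) h5.ne'] at this
    linarith

lemma f_V (j : ℕ) : f (8 * j) = Real.log (V j) := by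
  unfold f V
  rw [Real.log_abs]
  push_cast
  rw [Real.log_neg_eq_log]

noncomputable def g (k : ℕ) : ℝ := Real.log (V (2 ^ k * 2)) - Real.log (V (2 ^ k * 1))

lemma f_block (k p : ℕ) (hp : 1 ≤ p) :
    |f (8 * 2 ^ k * (p + 1)) - f (8 * 2 ^ k * p) - g k| ≤ Real.log 13 := by
  rw [mul_assoc, mul_assoc, f_V, f_V, g]
  have h1 : (V (2 ^ k * 1) : ℝ) * V (2 ^ k * (p + 1)) ≤ 13 * (V (2 ^ k * p) * V (2 ^ k * 2)) := by
    exact_mod_cast distort k p 1 hp le_rfl
  have h2 : (V (2 ^ k * p) : ℝ) * V (2 ^ k * 2) ≤ 13 * (V (2 ^ k * 1) * V (2 ^ k * (p + 1))) := by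
    exact_mod_cast distort k 1 p le_rfl hp
  have p0 : ∀ j, (0 : ℝ) < V j := fun j => by exact_mod_cast (cone j).1
  have l1 := Real.log_le_log (mul_pos (p0 _) (p0 _)) h1
  have l2 := Real.log_le_log (mul_pos (p0 _) (p0 _)) h2
  rw [Real.log_mul (by norm_num) (mul_pos (p0 _) (p0 _)).ne', Real.log_mul (p0 _).ne' (p0 _).ne',
    Real.log_mul (p0 _).ne' (p0 _).ne'] at l1 l2
  rw [abs_le]
  constructor <;> linarith

lemma approx (k : ℕ) : ∃ D : ℝ, ∀ n : ℕ, 0 < n →
    |f n / n - g k / (8 * 2 ^ k : ℕ)| ≤ Real.log 13 / (8 * 2 ^ k : ℕ) + D / n :=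
  gen f _ (g k) _ (8 * 2 ^ k) (by positivity) (Real.log_nonneg (by norm_num)) f_step (f_block k)

lemma conv : ∃ L : ℝ, Tendsto (fun n : ℕ => f n / n) atTop (𝓝 L) ∧
    ∀ k, |L - g k / (8 * 2 ^ k : ℕ)| ≤ Real.log 13 / (8 * 2 ^ k : ℕ) := by
  have hc : CauchySeq (fun n : ℕ => f n / n) := by
    rw [Metric.cauchySeq_iff]
    intro ε hε
    have t1 : Tendsto (fun k : ℕ => Real.log 13 / (8 * 2 ^ k : ℕ)) atTop (𝓝 0) := by
      refine (tendsto_const_div_atTop_nhds_zero_nat (Real.log 13)).comp ?_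
      exact (tendsto_pow_atTop_atTop_of_one_lt (by norm_num : 1 < 2)).const_mul_atTop'
        (by norm_num)
    obtain ⟨k, hk⟩ := (t1.eventually (gt_mem_nhds (by positivity : 0 < ε / 4))).exists
    obtain ⟨D, hD⟩ := approx k
    obtain ⟨n0, hn0⟩ := eventually_atTop.1 (((tendsto_const_div_atTop_nhds_zero_nat D).eventually
      (gt_mem_nhds (by positivity : 0 < ε / 4))).and (eventually_gt_atTop 0))
    refine ⟨n0, fun m hm n hn => ?_⟩
    have a1 := hD m (hn0 m hm).2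
    have a2 := hD n (hn0 n hn).2
    have a3 := (hn0 m hm).1
    have a4 := (hn0 n hn).1
    rw [Real.dist_eq, abs_lt]
    rw [abs_le] at a1 a2
    constructor <;> linarith [a1.1, a1.2, a2.1, a2.2]
  obtain ⟨L, hL⟩ := cauchySeq_tendsto_of_complete hc
  refine ⟨L, hL, fun k => ?_⟩
  obtain ⟨D, hD⟩ := approx k
  have t1 := (hL.sub_const (g k / (8 * 2 ^ k : ℕ))).abs
  have t2 := (tendsto_const_div_atTop_nhds_zero_nat D).const_add (Real.log 13 / (8 * 2 ^ k : ℕ))
  rw [add_zero] at t2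
  refine le_of_tendsto_of_tendsto t1 t2 ?_
  filter_upwards [eventually_gt_atTop 0] with n hn using hD n hn

def dz : ℕ → ℕ → Bool
  | 0, _ => true
  | k + 1, n => if n % 2 = 0 then false else !dz k (n / 2)

lemma dz_eq (k : ℕ) : ∀ n, n + 1 < 2 ^ k → t (n + 1) * t n = if dz k n then 1 else -1 := by
  induction k with
  | zero =>
    intro n hn
    omega
  | succ k ih =>
    intro n hn
    rcases Nat.even_or_odd' n with ⟨j, rfl | rfl⟩
    · rw [t_even, t_odd, dz]
      rcases t_cases j with e | e <;> simp [e]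
    · have h1 : (2 * j + 1) % 2 = 1 := by omega
      have h2 : (2 * j + 1) / 2 = j := by omega
      rw [t_odd, show 2 * j + 1 + 1 = 2 * (j + 1) by ring, t_even, mul_neg,
        ih j (by rw [pow_succ] at hn; omega), dz, h1, h2]
      cases dz k j <;> simp

def go : ℕ → ℕ → ℕ → ℕ → ℕ
  | 0, _, a, _ => a
  | m + 1, j, a, b =>
    if b = 0 then 0 else
      go m (j + 1) b (if dz 13 (j + 1) then 3 * b - a else 3 * b + a)

lemma go_eq (m : ℕ) : ∀ j a b : ℕ, j + m ≤ 5000 → (a : ℤ) = V j → (b : ℤ) = V (j + 1) →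
    (go m j a b : ℤ) = V (j + m) := by
  induction m with
  | zero => intro j a b _ ha _; simpa [go] using ha
  | succ m ih =>
    intro j a b hj ha hb
    have c1 := cone j
    have c2 := cone (j + 1)
    rw [go, if_neg (by omega), ih (j + 1) b _ (by omega) hb, show j + 1 + m = j + (m + 1) by ring]
    rw [V_rec, dz_eq 13 (j + 1) (by omega)]
    cases dz 13 (j + 1) <;> simp <;> omega

lemma num : 144 ^ 16384 * (13 * go 2048 0 2 7) < 125 ^ 16384 * go 4096 0 2 7 ∧
    400 ^ 16384 * (13 * go 4096 0 2 7) < 461 ^ 16384 * go 2048 0 2 7 := by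
  decide +kernel

end Pool.Agent.H.MP_7d59ed_nt
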